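import Pool.Agent.Lib.MP_524519_ag.DU5.AB.Iface

/-! # DU5/AB, module PX: the p-basis coefficients of `X_i G` and of `∂_i G` (helper84) -/

set_option autoImplicit false
set_option linter.unusedSectionVars false

namespace Pool.Agent.DU5.AB.H84

open MvPowerSeries Pool.Agent.DU5

section

variable {k : Type} [Field k] {p : ℕ} [Fact p.Prime] [CharP k p] [PerfectRing k p]

theorem coeff_pc (a : Fin 3 → Fin p) (G : O k 3) (u : Fin 3 →₀ ℕ) :
    coeff u (pc p a G) = (frobeniusEquiv k p).symm (coeff (p • u + ex a) G) := rfl

theorem ex_apply (a : Fin 3 → Fin p) (j : Fin 3) : ex a j = (a j : ℕ) := rfl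

theorem coeff_X_add (i : Fin 3) (v : Fin 3 →₀ ℕ) (G : O k 3) :
    coeff (Finsupp.single i 1 + v) (X i * G) = coeff v G := by
  rw [X, coeff_add_monomial_mul, one_mul]

theorem coeff_X_zero (i : Fin 3) (v : Fin 3 →₀ ℕ) (hv : v i = 0) (G : O k 3) :
    coeff v (X i * G) = 0 := by
  classical
  rw [X, coeff_monomial_mul, if_neg]
  intro h
  have h1 := h i
  rw [Finsupp.single_eq_same, hv] at h1
  omega

end

theorem px : PXStatement := by
  intro p _ k _ _ _ G a i
  refine ⟨fun b hb => ?_, fun b ha hb => ?_, fun b hb => ?_, fun ha => ?_⟩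
  · ext u
    rw [coeff_pc, coeff_pc]
    have h1 : p • u + ex a = Finsupp.single i 1 + (p • u + ex (Function.update a i b)) := by
      ext j
      simp only [Finsupp.add_apply, Finsupp.smul_apply, ex_apply, smul_eq_mul]
      by_cases hj : j = i
      · subst hj
        rw [Finsupp.single_eq_same, Function.update_self]
        omega
      · rw [Finsupp.single_eq_of_ne hj, Function.update_of_ne hj]
        omega
    rw [h1, coeff_X_add]
  · ext u
    rw [coeff_pc]
    by_cases hu : u i = 0
    · rw [coeff_X_zero i u hu, coeff_X_zero i (p • u + ex a)]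
      · exact map_zero _
      · simp only [Finsupp.add_apply, Finsupp.smul_apply, ex_apply, smul_eq_mul, hu, ha, mul_zero,
          add_zero]
    · obtain ⟨v, hv⟩ : ∃ v : Fin 3 →₀ ℕ, u = Finsupp.single i 1 + v := by
        refine ⟨u - Finsupp.single i 1, ?_⟩
        ext j
        simp only [Finsupp.add_apply, Finsupp.tsub_apply]
        by_cases hj : j = i
        · subst hj
          rw [Finsupp.single_eq_same]
          omega
        · rw [Finsupp.single_eq_of_ne hj]
          omega
      rw [hv, coeff_X_add, coeff_pc]
      have h1 : p • (Finsupp.single i 1 + v) + ex a =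
          Finsupp.single i 1 + (p • v + ex (Function.update a i b)) := by
        ext j
        simp only [Finsupp.add_apply, Finsupp.smul_apply, ex_apply, smul_eq_mul]
        by_cases hj : j = i
        · subst hj
          rw [Finsupp.single_eq_same, Function.update_self, mul_add, mul_one]
          omega
        · rw [Finsupp.single_eq_of_ne hj, Function.update_of_ne hj, mul_add, mul_zero, add_assoc]
      rw [h1, coeff_X_add]
  · ext u
    have hr : coeff u (((a i : ℕ) + 1 : O k 3) * pc p (Function.update a i b) G) =
        ((a i : ℕ) + 1 : k) * coeff u (pc p (Function.update a i b) G) := by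
      have e : (((a i : ℕ) + 1 : O k 3)) = C ((a i : ℕ) + 1 : k) := by
        rw [map_add, map_natCast, map_one]
      rw [e, coeff_C_mul]
    rw [hr, coeff_pc, coeff_pc, coeff_pderiv]
    have h1 : p • u + ex a + Finsupp.single i 1 = p • u + ex (Function.update a i b) := by
      ext j
      simp only [Finsupp.add_apply, Finsupp.smul_apply, ex_apply, smul_eq_mul]
      by_cases hj : j = i
      · subst hj
        rw [Finsupp.single_eq_same, Function.update_self]
        omega
      · rw [Finsupp.single_eq_of_ne hj, Function.update_of_ne hj]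
        omega
    have h2 : (((p • u + ex a) i : ℕ) : k) = ((a i : ℕ) : k) := by
      simp only [Finsupp.add_apply, Finsupp.smul_apply, ex_apply, smul_eq_mul]
      push_cast
      rw [CharP.cast_eq_zero, zero_mul, zero_add]
    rw [h1, h2, map_mul, map_add, map_natCast, map_one]
    ring
  · ext u
    rw [coeff_pc, coeff_pderiv]
    have h2 : (((p • u + ex a) i : ℕ) : k) + 1 = 0 := by
      simp only [Finsupp.add_apply, Finsupp.smul_apply, ex_apply, smul_eq_mul]
      push_cast
      rw [CharP.cast_eq_zero, zero_mul, zero_add]
      have h3 : (((a i : ℕ) + 1 : ℕ) : k) = 0 := by rw [ha, CharP.cast_eq_zero]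
      push_cast at h3
      exact h3
    rw [h2, mul_zero, map_zero, map_zero]

end Pool.Agent.DU5.AB.H84
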